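import Pool.Agent.Lib.MP_43d240_ag.PI.NL.Iface

/-!
# Project PI, chapter NL, module DEG: the degree of a plane curve is the degree of its function
field over `k(x - μ y)`, for almost all `μ`.
-/

set_option autoImplicit false
set_option linter.all false

open Polynomial
open scoped IntermediateField

namespace Pool.Agent.PI.NL

section theta

variable {k : Type} [Field k] (μ : k)

/-- `X0 ↦ W + μ Y`, `X1 ↦ Y` -/
noncomputable def thetaHom : MvPolynomial (Fin 2) k →ₐ[k] k[X][X] :=
  MvPolynomial.aeval ![Polynomial.C Polynomial.X + Polynomial.C (Polynomial.C μ) * Polynomial.X,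
    Polynomial.X]

/-- `W ↦ X0 - μ X1` -/
noncomputable def wMv : MvPolynomial (Fin 2) k :=
  MvPolynomial.X 0 - MvPolynomial.C μ * MvPolynomial.X 1

/-- the inverse -/
noncomputable def psiHom : k[X][X] →ₐ[k] MvPolynomial (Fin 2) k :=
  Polynomial.aevalTower (Polynomial.aeval (wMv μ)) (MvPolynomial.X 1)

theorem psiHom_C (p : k[X]) : psiHom μ (Polynomial.C p) = Polynomial.aeval (wMv μ) p := by
  unfold psiHom
  rw [Polynomial.aevalTower_C]

theorem psiHom_X : psiHom μ Polynomial.X = MvPolynomial.X 1 := by
  unfold psiHom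
  rw [Polynomial.aevalTower_X]

theorem thetaHom_X0 : thetaHom μ (MvPolynomial.X 0) =
    Polynomial.C Polynomial.X + Polynomial.C (Polynomial.C μ) * Polynomial.X := by
  unfold thetaHom
  simp

theorem thetaHom_X1 : thetaHom μ (MvPolynomial.X 1) = Polynomial.X := by
  unfold thetaHom
  simp

theorem thetaHom_C (a : k) : thetaHom μ (MvPolynomial.C a) = Polynomial.C (Polynomial.C a) := by
  unfold thetaHom
  rw [MvPolynomial.aeval_C]
  rfl

/-- the isomorphism -/
noncomputable def theta : MvPolynomial (Fin 2) k ≃ₐ[k] k[X][X] :=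
  AlgEquiv.ofAlgHom (thetaHom μ) (psiHom μ)
    (by
      apply Polynomial.algHom_ext'
      · apply Polynomial.algHom_ext
        change thetaHom μ (psiHom μ (Polynomial.C Polynomial.X)) = Polynomial.C Polynomial.X
        rw [psiHom_C, Polynomial.aeval_X, wMv, map_sub, map_mul, thetaHom_X0, thetaHom_X1,
          thetaHom_C]
        ring
      · change thetaHom μ (psiHom μ Polynomial.X) = Polynomial.X
        rw [psiHom_X, thetaHom_X1])
    (by
      apply MvPolynomial.algHom_ext
      intro i
      change psiHom μ (thetaHom μ (MvPolynomial.X i)) = MvPolynomial.X i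
      fin_cases i
      · change psiHom μ (thetaHom μ (MvPolynomial.X 0)) = MvPolynomial.X 0
        rw [thetaHom_X0, map_add, map_mul, psiHom_C, psiHom_C, psiHom_X, Polynomial.aeval_X,
          Polynomial.aeval_C, wMv]
        rw [MvPolynomial.algebraMap_eq]
        ring
      · change psiHom μ (thetaHom μ (MvPolynomial.X 1)) = MvPolynomial.X 1
        rw [thetaHom_X1, psiHom_X])

theorem theta_apply (f : MvPolynomial (Fin 2) k) : theta μ f = thetaHom μ f := rfl

theorem theta_symm_apply (f : k[X][X]) : (theta μ).symm f = psiHom μ f := rfl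

theorem theta_psi (G : k[X][X]) : theta μ (psiHom μ G) = G := by
  rw [← theta_symm_apply, AlgEquiv.apply_symm_apply]

theorem psi_theta (f : MvPolynomial (Fin 2) k) : psiHom μ (theta μ f) = f := by
  rw [← theta_symm_apply, AlgEquiv.symm_apply_apply]

/-- a monomial -/
theorem theta_term (s : Fin 2 →₀ ℕ) (a : k) :
    theta μ (MvPolynomial.monomial s a) = Polynomial.C (Polynomial.C a) *
      ((Polynomial.C Polynomial.X + Polynomial.C (Polynomial.C μ) * Polynomial.X) ^ (s 0) *
        Polynomial.X ^ (s 1)) := by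
  rw [theta_apply, MvPolynomial.monomial_eq, Finsupp.prod_fintype _ _ (fun i => pow_zero _),
    Fin.prod_univ_two, map_mul, map_mul, map_pow, map_pow, thetaHom_C, thetaHom_X0, thetaHom_X1]

theorem natDegree_lin : (Polynomial.C Polynomial.X +
    Polynomial.C (Polynomial.C μ) * Polynomial.X : k[X][X]).natDegree ≤ 1 := by
  refine (Polynomial.natDegree_add_le _ _).trans (max_le ?_ ?_)
  · rw [Polynomial.natDegree_C]; exact Nat.zero_le _
  · exact (Polynomial.natDegree_C_mul_le _ _).trans Polynomial.natDegree_X_le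

theorem natDegree_term (s : Fin 2 →₀ ℕ) (a : k) :
    (theta μ (MvPolynomial.monomial s a)).natDegree ≤ s 0 + s 1 := by
  rw [theta_term]
  refine (Polynomial.natDegree_C_mul_le _ _).trans ?_
  refine Polynomial.natDegree_mul_le.trans (add_le_add ?_ ?_)
  · refine Polynomial.natDegree_pow_le.trans ?_
    have := natDegree_lin μ
    calc s 0 * _ ≤ s 0 * 1 := Nat.mul_le_mul_left _ this
      _ = s 0 := mul_one _
  · exact Polynomial.natDegree_X_pow_le _

theorem coeff_term (s : Fin 2 →₀ ℕ) (a : k) :
    (theta μ (MvPolynomial.monomial s a)).coeff (s 0 + s 1) =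
      Polynomial.C (a * μ ^ (s 0)) := by
  rw [theta_term, Polynomial.coeff_C_mul,
    Polynomial.coeff_mul_add_eq_of_natDegree_le (df := s 0) (dg := s 1) _ (Polynomial.natDegree_X_pow_le _),
    Polynomial.coeff_X_pow_self]
  · have h := Polynomial.coeff_pow_of_natDegree_le (m := s 0) (natDegree_lin μ)
    rw [mul_one] at h
    rw [h]
    simp
  · refine Polynomial.natDegree_pow_le.trans ?_
    have := natDegree_lin μ
    calc s 0 * _ ≤ s 0 * 1 := Nat.mul_le_mul_left _ this
      _ = s 0 := mul_one _

end theta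

section top

variable {k : Type} [Field k] (γ : MvPolynomial (Fin 2) k)

/-- the top form of `γ` at `(T, 1)` -/
noncomputable def topPoly : k[X] :=
  ∑ s ∈ γ.support.filter (fun s => s 0 + s 1 = γ.totalDegree),
    Polynomial.monomial (s 0) (γ.coeff s)

theorem sum_eq (s : Fin 2 →₀ ℕ) : (s.sum fun _ e => e) = s 0 + s 1 := by
  rw [Finsupp.sum_fintype _ _ (fun _ => rfl), Fin.sum_univ_two]

theorem topPoly_ne_zero (h : γ ≠ 0) : topPoly γ ≠ 0 := by
  classical
  obtain ⟨s, hs, hs2⟩ := Finset.exists_mem_eq_sup γ.support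
    (MvPolynomial.support_nonempty.2 h) (fun s => s.sum fun _ e => e)
  have hs3 : s 0 + s 1 = γ.totalDegree := by
    rw [← sum_eq]
    exact hs2.symm
  intro h0
  have h1 : (topPoly γ).coeff (s 0) = γ.coeff s := by
    unfold topPoly
    rw [Polynomial.finset_sum_coeff, Finset.sum_eq_single s]
    · rw [Polynomial.coeff_monomial, if_pos rfl]
    · intro s' hs' hne
      rw [Finset.mem_filter] at hs'
      rw [Polynomial.coeff_monomial, if_neg]
      intro h2
      apply hne
      ext i
      fin_cases i
      · exact h2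
      · change s' 1 = s 1
        omega
    · intro h2
      exact absurd (Finset.mem_filter.2 ⟨hs, hs3⟩) h2
  rw [h0, Polynomial.coeff_zero] at h1
  exact (MvPolynomial.mem_support_iff.1 hs) h1.symm

variable (μ : k)

theorem theta_eq_sum : theta μ γ = ∑ s ∈ γ.support, theta μ (MvPolynomial.monomial s (γ.coeff s)) := by
  conv_lhs => rw [γ.as_sum]
  rw [map_sum]

theorem natDegree_theta_le : (theta μ γ).natDegree ≤ γ.totalDegree := by
  rw [theta_eq_sum]
  refine Polynomial.natDegree_sum_le_of_forall_le _ _ fun s hs => ?_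
  refine (natDegree_term μ s _).trans ?_
  rw [← sum_eq]
  exact MvPolynomial.le_totalDegree hs

theorem coeff_theta : (theta μ γ).coeff γ.totalDegree = Polynomial.C ((topPoly γ).eval μ) := by
  classical
  rw [theta_eq_sum, Polynomial.finset_sum_coeff, topPoly, Polynomial.eval_finset_sum, map_sum,
    Finset.sum_filter]
  refine Finset.sum_congr rfl fun s hs => ?_
  split_ifs with h
  · rw [← h, coeff_term, Polynomial.eval_monomial]
  · apply Polynomial.coeff_eq_zero_of_natDegree_lt
    have h1 := natDegree_term μ s (γ.coeff s)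
    have h2 := MvPolynomial.le_totalDegree hs
    rw [sum_eq] at h2
    omega

end top

section main

variable {k κ : Type} [Field k] [Field κ] [Algebra k κ]

theorem deg_aux (γ : MvPolynomial (Fin 2) k) (φ : MvPolynomial (Fin 2) k →ₐ[k] κ)
    (hirr : Irreducible γ) (hpos : 0 < γ.totalDegree) (hker : ∀ f, φ f = 0 ↔ γ ∣ f)
    (hfrac : ∀ z : κ, ∃ f g, φ g ≠ 0 ∧ z * φ g = φ f) (μ : k) (hμ : (topPoly γ).eval μ ≠ 0) :
    Transcendental k (φ (MvPolynomial.X 0) - algebraMap k κ μ * φ (MvPolynomial.X 1)) ∧
      ht k (φ (MvPolynomial.X 0) - algebraMap k κ μ * φ (MvPolynomial.X 1)) =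
        γ.totalDegree := by
  set w : κ := φ (MvPolynomial.X 0) - algebraMap k κ μ * φ (MvPolynomial.X 1) with hw
  set y : κ := φ (MvPolynomial.X 1) with hy
  have hφw : φ (wMv μ) = w := by
    rw [wMv, map_sub, map_mul, hw, MvPolynomial.algHom_C]
  -- the monic polynomial
  set u : k := (topPoly γ).eval μ with hu
  have huC : IsUnit (Polynomial.C (Polynomial.C u⁻¹) : k[X][X]) :=
    (((IsUnit.mk0 _ (inv_ne_zero hμ)).map Polynomial.C).map Polynomial.C)
  set g : k[X][X] := Polynomial.C (Polynomial.C u⁻¹) * theta μ γ with hg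
  have hgirr : Irreducible g := by
    rw [hg, irreducible_isUnit_mul huC]
    exact (MulEquiv.irreducible_iff (theta μ)).2 hirr
  have hgdeg : g.natDegree ≤ γ.totalDegree := by
    rw [hg]
    exact (Polynomial.natDegree_C_mul_le _ _).trans (natDegree_theta_le γ μ)
  have hgcoeff : g.coeff γ.totalDegree = 1 := by
    rw [hg, Polynomial.coeff_C_mul, coeff_theta, ← map_mul, inv_mul_cancel₀ hμ, map_one]
  have hgmonic : g.Monic := Polynomial.monic_of_natDegree_le_of_coeff_eq_one _ hgdeg hgcoeff
  have hgnat : g.natDegree = γ.totalDegree := by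
    apply le_antisymm hgdeg
    apply Polynomial.le_natDegree_of_ne_zero
    rw [hgcoeff]
    exact one_ne_zero
  -- the evaluation
  have hchi : ∀ G : k[X][X], φ (psiHom μ G) = Polynomial.eval₂ (Polynomial.aeval w).toRingHom y G := by
    intro G
    have : (φ.comp (psiHom μ)) = Polynomial.aevalTower (Polynomial.aeval w) y := by
      apply Polynomial.algHom_ext'
      · apply Polynomial.algHom_ext
        change φ (psiHom μ (Polynomial.C Polynomial.X)) =
          Polynomial.aevalTower (Polynomial.aeval w) y (Polynomial.C Polynomial.X)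
        rw [psiHom_C, Polynomial.aeval_X, Polynomial.aevalTower_C, Polynomial.aeval_X, hφw]
      · change φ (psiHom μ Polynomial.X) =
          Polynomial.aevalTower (Polynomial.aeval w) y Polynomial.X
        rw [psiHom_X, Polynomial.aevalTower_X]
    exact congrArg (fun h : k[X][X] →ₐ[k] κ => h G) this
  have hchi0 : ∀ G : k[X][X], φ (psiHom μ G) = 0 → g ∣ G := by
    intro G hG
    rw [hker] at hG
    have h1 : theta μ γ ∣ theta μ (psiHom μ G) := by
      obtain ⟨d, hd⟩ := hG
      exact ⟨theta μ d, by rw [hd, map_mul]⟩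
    rw [theta_psi] at h1
    rw [hg]
    exact (huC.mul_left_dvd).2 h1
  have hgval : Polynomial.eval₂ (Polynomial.aeval w).toRingHom y g = 0 := by
    rw [← hchi, hg, map_mul, map_mul]
    rw [psi_theta, (hker γ).2 dvd_rfl, mul_zero]
  have htr : Transcendental k w := by
    intro halg
    obtain ⟨p, hp0, hp⟩ := halg
    have h1 := hchi0 (Polynomial.C p) (by
      rw [hchi, Polynomial.eval₂_C]
      exact hp)
    have h2 := Polynomial.natDegree_le_of_dvd h1 (by
      rwa [Ne, Polynomial.C_eq_zero])
    rw [Polynomial.natDegree_C, hgnat] at h2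
    omega
  refine ⟨htr, ?_⟩
  -- the field of rational functions
  have hirr2 : Irreducible (g.map (algebraMap k[X] (RatFunc k))) :=
    (Polynomial.Monic.irreducible_iff_irreducible_map_fraction_map hgmonic).1 hgirr
  let e : RatFunc k ≃ₐ[k] k⟮w⟯ := RatFunc.algEquivOfTranscendental w htr
  have hirr3 : Irreducible ((g.map (algebraMap k[X] (RatFunc k))).map (e : RatFunc k →+* k⟮w⟯)) :=
    (MulEquiv.irreducible_iff (Polynomial.mapEquiv (e : RatFunc k ≃+* k⟮w⟯))).2 hirr2
  set G : k⟮w⟯[X] := (g.map (algebraMap k[X] (RatFunc k))).map (e : RatFunc k →+* k⟮w⟯) with hG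
  have hGmonic : G.Monic := (hgmonic.map _).map _
  have hGnat : G.natDegree = γ.totalDegree := by
    rw [hG, Polynomial.natDegree_map, Polynomial.natDegree_map_eq_of_injective
      (RatFunc.algebraMap_injective k), hgnat]
  have hGval : Polynomial.aeval y G = 0 := by
    rw [hG, Polynomial.map_map, Polynomial.aeval_def, Polynomial.eval₂_map]
    rw [← hgval]
    congr 1
    apply RingHom.ext
    intro p
    change algebraMap k⟮w⟯ κ (e (algebraMap k[X] (RatFunc k) p)) = Polynomial.aeval w p
    rw [show e (algebraMap k[X] (RatFunc k) p) =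
      Polynomial.aeval (IntermediateField.AdjoinSimple.gen k w) p from
      RatFunc.algEquivOfTranscendental_algebraMap w htr p, ← Polynomial.aeval_algebraMap_apply,
      IntermediateField.AdjoinSimple.algebraMap_gen]
  have hmin : G = minpoly k⟮w⟯ y := minpoly.eq_of_irreducible_of_monic hirr3 hGval hGmonic
  have hint : IsIntegral k⟮w⟯ y := ⟨G, hGmonic, hGval⟩
  have htop : (k⟮w⟯)⟮y⟯ = ⊤ := by
    rw [eq_top_iff]
    intro z _
    obtain ⟨f, f', hf', hz⟩ := hfrac z
    have hwm : w ∈ (k⟮w⟯)⟮y⟯ :=
      (k⟮w⟯)⟮y⟯.algebraMap_mem ⟨w, IntermediateField.mem_adjoin_simple_self k w⟩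
    have hym : y ∈ (k⟮w⟯)⟮y⟯ := IntermediateField.mem_adjoin_simple_self _ y
    have hkm : ∀ a : k, algebraMap k κ a ∈ (k⟮w⟯)⟮y⟯ := fun a =>
      (k⟮w⟯)⟮y⟯.algebraMap_mem (algebraMap k k⟮w⟯ a)
    have hall : ∀ f : MvPolynomial (Fin 2) k, φ f ∈ (k⟮w⟯)⟮y⟯ := by
      intro f
      induction f using MvPolynomial.induction_on with
      | C a => rw [MvPolynomial.algHom_C]; exact hkm a
      | add p q hp hq => rw [map_add]; exact add_mem hp hq
      | mul_X p i hp =>
        rw [map_mul]
        refine mul_mem hp ?_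
        fin_cases i
        · change φ (MvPolynomial.X 0) ∈ _
          have : φ (MvPolynomial.X 0) = w + algebraMap k κ μ * y := by rw [hw]; ring
          rw [this]
          exact add_mem hwm (mul_mem (hkm μ) hym)
        · exact hym
    have : z = φ f / φ f' := by rw [← hz]; field_simp
    rw [this]
    exact div_mem (hall f) (hall f')
  unfold ht
  rw [← IntermediateField.finrank_top' (F := k⟮w⟯) (E := κ), ← htop,
    IntermediateField.adjoin.finrank hint, ← hmin, hGnat]

end main

theorem deg : DegStatement := by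
  intro k κ _ _ _ _ _ γ φ hirr hpos hker hfrac
  refine (Polynomial.rootSet_finite (topPoly γ) k).subset ?_
  intro μ hμ
  rw [Polynomial.mem_rootSet]
  refine ⟨topPoly_ne_zero γ hirr.ne_zero, ?_⟩
  by_contra hne
  refine hμ (deg_aux γ φ hirr hpos hker hfrac μ ?_)
  rwa [Polynomial.coe_aeval_eq_eval] at hne

end Pool.Agent.PI.NL
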