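import Pool.Agent.Lib.MP_43d240_ag.PI.NL.Asm
import Pool.Agent.Lib.MP_43d240_ag.PI.NL.Deg

/-!
# Project PI, chapter NL: `b` is not a square on plane curves of odd degree (helper47, helper30,
helper2)
-/

set_option autoImplicit false

namespace Pool.Agent.PI.NL

/-- Chapter NL from chapter PAR. -/
theorem nl (par : PARStatement) : NLStatement := nl_of par deg

end Pool.Agent.PI.NL
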