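import Pool.Agent.Lib.MP_43d240_ag.PI.NL.Iface

/-!
# Project PI, chapter NL: the cubic splits (helper47)
-/

set_option autoImplicit false

namespace Pool.Agent.PI.NL

theorem cub : CubStatement := by
  intro F _ _ m c s t1 hs ht
  have h2 : (2 : F) ≠ 0 := two_ne_zero
  have hdisc : ((t1 - m ^ 2) ^ 2 - 4 * (t1 ^ 2 - m ^ 2 * t1 - (1 + 2 * m * c))) *
      (3 * t1 ^ 2 - 2 * m ^ 2 * t1 - (1 + 2 * m * c)) ^ 2 = s ^ 2 := by
    linear_combination (-27 * t1 ^ 3 + 27 * m ^ 2 * t1 ^ 2 + 27 * (1 + 2 * m * c) * t1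
      - 4 * m ^ 6 - 18 * m ^ 2 * (1 + 2 * m * c) - 27 * c ^ 2) * ht + hs
  generalize he : 3 * t1 ^ 2 - 2 * m ^ 2 * t1 - (1 + 2 * m * c) = e at hdisc
  by_cases hee : e = 0
  · refine ⟨t1, m ^ 2 - 2 * t1, by ring, ?_, ?_⟩
    · linear_combination (-1 : F) * he - hee
    · linear_combination (-t1) * he - t1 * hee + ht
  · obtain ⟨r, hr⟩ : ∃ r : F, r * e = s := ⟨s / e, div_mul_cancel₀ s hee⟩
    have hq : (t1 - m ^ 2) ^ 2 - 4 * (t1 ^ 2 - m ^ 2 * t1 - (1 + 2 * m * c)) = r ^ 2 := by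
      have h1 : ((t1 - m ^ 2) ^ 2 - 4 * (t1 ^ 2 - m ^ 2 * t1 - (1 + 2 * m * c)) - r ^ 2) * e ^ 2 = 0 := by
        linear_combination hdisc - (r * e + s) * hr
      have h3 := (mul_eq_zero.1 h1).resolve_right (pow_ne_zero 2 hee)
      linear_combination h3
    refine ⟨(m ^ 2 - t1 + r) / 2, (m ^ 2 - t1 - r) / 2, ?_, ?_, ?_⟩
    · field_simp; ring
    · have h4 : t1 * ((m ^ 2 - t1 + r) / 2) + t1 * ((m ^ 2 - t1 - r) / 2) +
          (m ^ 2 - t1 + r) / 2 * ((m ^ 2 - t1 - r) / 2) =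
          t1 * (m ^ 2 - t1) + ((m ^ 2 - t1) ^ 2 - r ^ 2) / 4 := by
        field_simp; ring
      rw [h4, ← hq]
      field_simp; ring
    · have h4 : t1 * ((m ^ 2 - t1 + r) / 2) * ((m ^ 2 - t1 - r) / 2) =
          t1 * (((m ^ 2 - t1) ^ 2 - r ^ 2) / 4) := by
        field_simp; ring
      rw [h4, ← hq]
      have h5 : t1 * (((m ^ 2 - t1) ^ 2 - ((t1 - m ^ 2) ^ 2 -
          4 * (t1 ^ 2 - m ^ 2 * t1 - (1 + 2 * m * c)))) / 4) =
          t1 * (t1 ^ 2 - m ^ 2 * t1 - (1 + 2 * m * c)) := by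
        field_simp; ring
      rw [h5]
      linear_combination ht

end Pool.Agent.PI.NL
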