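import Pool.Agent.Lib.MP_43d240_ag.PI.NL.Iface

/-!
# Project PI, chapter NL: heights in finite extensions (helper47)
-/

set_option autoImplicit false

open scoped IntermediateField

namespace Pool.Agent.PI.NL

theorem tow : TowStatement := by
  intro k κ κ' _ _ _ _ _ _ _ f
  have h1 : k⟮algebraMap κ κ' f⟯ = (k⟮f⟯).map (IsScalarTower.toAlgHom k κ κ') := by
    rw [IntermediateField.adjoin_map, Set.image_singleton]
    rfl
  let e : k⟮f⟯ ≃ₐ[k] k⟮algebraMap κ κ' f⟯ :=
    (IntermediateField.equivMap k⟮f⟯ (IsScalarTower.toAlgHom k κ κ')).trans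
      (IntermediateField.equivOfEq h1.symm)
  have h2 : Module.finrank k⟮algebraMap κ κ' f⟯ κ' = Module.finrank k⟮f⟯ κ' := by
    symm
    refine Algebra.finrank_eq_of_equiv_equiv e.toRingEquiv (RingEquiv.refl κ') ?_
    ext x
    rfl
  unfold ht
  rw [h2, Module.finrank_mul_finrank]

end Pool.Agent.PI.NL
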