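import Pool.Agent.Lib.MP_43d240_ag.PI.NL.Iface
import Pool.Agent.Lib.MP_43d240_ag.PI.NL.Cub
import Pool.Agent.Lib.MP_43d240_ag.PI.NL.Tow
import Pool.Agent.Lib.MP_43d240_ag.H2.Mc

/-!
# Project PI, chapter NL: assembly (helper47)
-/

set_option autoImplicit false

open scoped IntermediateField Polynomial

namespace Pool.Agent.PI.NL

section core

variable {k κ κ' : Type} [Field k] [IsAlgClosed k] [CharZero k] [Field κ] [Field κ']
  [Algebra k κ] [Algebra k κ'] [Algebra κ κ'] [IsScalarTower k κ κ']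

/-- no splitting in an extension of odd degree -/
theorem core_split (par : PARStatement) (n : ℕ) (hn : Odd n) (m c : κ)
    (hdeg : {μ : k | ¬ (Transcendental k (c + algebraMap k κ μ * m) ∧
      ht k (c + algebraMap k κ μ * m) = n)}.Finite)
    (hodd : Odd (Module.finrank κ κ')) (t1 t2 t3 : κ')
    (e1 : t1 + t2 + t3 = algebraMap κ κ' m ^ 2)
    (e2 : t1 * t2 + t1 * t3 + t2 * t3 = - (1 + 2 * algebraMap κ κ' m * algebraMap κ κ' c))
    (e3 : t1 * t2 * t3 = algebraMap κ κ' c ^ 2) : False := by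
  have hinf : Infinite k := inferInstance
  have hmap : ∀ μ : k, algebraMap κ κ' c + algebraMap k κ' μ * algebraMap κ κ' m =
      algebraMap κ κ' (c + algebraMap k κ μ * m) := by
    intro μ
    rw [map_add, map_mul, IsScalarTower.algebraMap_apply k κ κ']
  have hht : ∀ μ : k, ht k (algebraMap κ κ' c + algebraMap k κ' μ * algebraMap κ κ' m) =
      ht k (c + algebraMap k κ μ * m) * Module.finrank κ κ' := by
    intro μ
    rw [hmap, tow k κ κ']
  have hff : FF1 k κ' := by
    obtain ⟨μ, hμ⟩ := hdeg.infinite_compl.nonempty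
    simp only [Set.mem_compl_iff, Set.mem_ofPred_eq, not_not] at hμ
    refine ⟨algebraMap κ κ' (c + algebraMap k κ μ * m), ?_, ?_⟩
    · exact (transcendental_algebraMap_iff (algebraMap κ κ').injective).2 hμ.1
    · have h1 : 0 < ht k (algebraMap κ κ' (c + algebraMap k κ μ * m)) := by
        rw [tow k κ κ', hμ.2]
        exact Nat.mul_pos hn.pos hodd.pos
      exact Module.finite_of_finrank_pos h1
  have hgen := Pool.Agent.Lib.MP_43d240_ag.H2.ht_generic hff (algebraMap κ κ' c) (algebraMap κ κ' m)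
  have hsum := Pool.Agent.Lib.MP_43d240_ag.H2.sum_ht hff e1 e2 e3
  obtain ⟨μ, hμ⟩ := (hdeg.union hgen).infinite_compl.nonempty
  simp only [Set.mem_compl_iff, Set.mem_union, Set.mem_ofPred_eq, not_or, not_not] at hμ
  obtain ⟨⟨-, hμ1⟩, hμ2⟩ := hμ
  have h4 := par k κ' hff _ _ t1 t2 t3 e1 e2 e3
  rw [hsum] at h4
  have h5 : (∑ᶠ v : Pl k κ', max (pp v (algebraMap κ κ' m)) (pp v (algebraMap κ κ' c))) =
      n * Module.finrank κ κ' := by
    rw [← hμ1, ← hht μ, hμ2]
    exact finsum_congr fun v => max_comm _ _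
  rw [h5] at h4
  have h6 : Odd (n * Module.finrank κ κ') := hn.mul hodd
  obtain ⟨r, hr⟩ := h6
  obtain ⟨q, hq⟩ := h4
  omega

end core

theorem core (par : PARStatement) (k κ : Type) [Field k] [IsAlgClosed k] [CharZero k] [Field κ]
    [Algebra k κ] (n : ℕ) (hn : Odd n) (m c s : κ)
    (hdeg : {μ : k | ¬ (Transcendental k (c + algebraMap k κ μ * m) ∧
      ht k (c + algebraMap k κ μ * m) = n)}.Finite)
    (hs : 4 * m ^ 5 * c - 4 * m ^ 3 * c ^ 3 + m ^ 4 + 30 * m ^ 2 * c ^ 2 - 27 * c ^ 4 +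
      24 * m * c + 4 = s ^ 2) : False := by
  have hchar : CharZero κ := charZero_of_injective_algebraMap (algebraMap k κ).injective
  by_cases hroot : ∃ t1 : κ, t1 ^ 3 - m ^ 2 * t1 ^ 2 - (1 + 2 * m * c) * t1 - c ^ 2 = 0
  · obtain ⟨t1, ht1⟩ := hroot
    obtain ⟨t2, t3, e1, e2, e3⟩ := cub κ m c s t1 hs ht1
    exact core_split (κ := κ) (κ' := κ) par n hn m c hdeg (by rw [Module.finrank_self]; exact odd_one)
      t1 t2 t3 e1 e2 e3
  · push Not at hroot
    set P : κ[X] := Polynomial.X ^ 3 - Polynomial.C (m ^ 2) * Polynomial.X ^ 2 -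
      Polynomial.C (1 + 2 * m * c) * Polynomial.X - Polynomial.C (c ^ 2) with hP
    have hdegP : P.natDegree = 3 := by
      rw [hP]; compute_degree!
    have hev : ∀ (R : Type) [CommRing R] (f : κ →+* R) (t : R), P.eval₂ f t =
        t ^ 3 - f m ^ 2 * t ^ 2 - (1 + 2 * f m * f c) * t - f c ^ 2 := by
      intro R _ f t
      rw [hP, Polynomial.eval₂_sub, Polynomial.eval₂_sub, Polynomial.eval₂_sub,
        Polynomial.eval₂_mul, Polynomial.eval₂_mul, Polynomial.eval₂_pow, Polynomial.eval₂_pow,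
        Polynomial.eval₂_X, Polynomial.eval₂_C, Polynomial.eval₂_C, Polynomial.eval₂_C]
      simp only [map_add, map_mul, map_pow, map_ofNat, map_one]
    have hP0 : P ≠ 0 := by
      intro h; rw [h] at hdegP; simp at hdegP
    have hirr : Irreducible P := by
      rw [Polynomial.irreducible_iff_roots_eq_zero_of_degree_le_three (by omega) (by omega)]
      refine Multiset.eq_zero_of_forall_notMem fun t ht => ?_
      rw [Polynomial.mem_roots hP0, Polynomial.IsRoot.def] at ht
      apply hroot t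
      rw [← ht, hP]
      simp
    have : Fact (Irreducible P) := ⟨hirr⟩
    have hfin : Module.finrank κ (AdjoinRoot P) = 3 := by
      rw [(AdjoinRoot.powerBasis hP0).finrank, AdjoinRoot.powerBasis_dim, hdegP]
    have hchar' : CharZero (AdjoinRoot P) :=
      charZero_of_injective_algebraMap (algebraMap κ (AdjoinRoot P)).injective
    obtain ⟨t2, t3, e1, e2, e3⟩ := cub (AdjoinRoot P) (algebraMap κ (AdjoinRoot P) m)
      (algebraMap κ (AdjoinRoot P) c) (algebraMap κ (AdjoinRoot P) s) (AdjoinRoot.root P)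
      (by
        rw [← map_pow (algebraMap κ (AdjoinRoot P)) s, ← hs]
        simp only [map_add, map_sub, map_mul, map_pow, map_ofNat])
      (by rw [← AdjoinRoot.eval₂_root P, hev]; rfl)
    exact core_split (κ := κ) (κ' := AdjoinRoot P) par n hn m c hdeg
      (by rw [hfin]; decide) _ t2 t3 e1 e2 e3

theorem nl_of (par : PARStatement) (deg : DegStatement) : NLStatement := by
  intro k _ _ _ γ hγ hodd p q hq hdvd
  have hprime : Prime γ := hγ.prime
  let I : Ideal (MvPolynomial (Fin 2) k) := Ideal.span {γ}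
  have hI : I.IsPrime := (Ideal.span_singleton_prime hγ.ne_zero).2 hprime
  have hdom : IsDomain (MvPolynomial (Fin 2) k ⧸ I) := inferInstance
  let κ := FractionRing (MvPolynomial (Fin 2) k ⧸ I)
  let φ : MvPolynomial (Fin 2) k →ₐ[k] κ :=
    (IsScalarTower.toAlgHom k (MvPolynomial (Fin 2) k ⧸ I) κ).comp (Ideal.Quotient.mkₐ k I)
  have hφ : ∀ f, φ f = algebraMap (MvPolynomial (Fin 2) k ⧸ I) κ (Ideal.Quotient.mk I f) :=
    fun f => rfl
  have hker : ∀ f, φ f = 0 ↔ γ ∣ f := by
    intro f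
    rw [hφ, IsFractionRing.to_map_eq_zero_iff, Ideal.Quotient.eq_zero_iff_mem,
      Ideal.mem_span_singleton]
  have hsurj : ∀ z : κ, ∃ f g, φ g ≠ 0 ∧ z * φ g = φ f := by
    intro z
    obtain ⟨a, b, hb, rfl⟩ := IsFractionRing.div_surjective (A := MvPolynomial (Fin 2) k ⧸ I) z
    obtain ⟨f, rfl⟩ := Ideal.Quotient.mk_surjective a
    obtain ⟨g, rfl⟩ := Ideal.Quotient.mk_surjective b
    have hb' : algebraMap (MvPolynomial (Fin 2) k ⧸ I) κ (Ideal.Quotient.mk I g) ≠ 0 :=
      IsFractionRing.to_map_ne_zero_of_mem_nonZeroDivisors hb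
    exact ⟨f, g, hb', div_mul_cancel₀ _ hb'⟩
  have hdeg := deg k κ γ φ hγ hodd.pos hker hsurj
  have hqφ : φ q ≠ 0 := fun h => hq ((hker q).1 h)
  have hrel : φ (bpoly k) = (φ p / φ q) ^ 2 := by
    have h1 := (hker _).2 hdvd
    rw [map_sub, map_mul, map_pow, map_pow] at h1
    rw [div_pow, eq_div_iff (pow_ne_zero 2 hqφ)]
    exact sub_eq_zero.1 h1
  refine core par k κ γ.totalDegree hodd (φ (MvPolynomial.X 1))
    (φ (MvPolynomial.X 0) - 2 * φ (MvPolynomial.X 1)) (φ p / φ q) ?_ ?_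
  · refine Set.Finite.subset (hdeg.preimage (f := fun μ : k => 2 - μ)
      (fun a _ b _ h => by simpa using h)) ?_
    intro μ hμ
    simp only [Set.mem_preimage, Set.mem_ofPred_eq] at hμ ⊢
    have h2 : φ (MvPolynomial.X 0) - algebraMap k κ (2 - μ) * φ (MvPolynomial.X 1) =
        φ (MvPolynomial.X 0) - 2 * φ (MvPolynomial.X 1) + algebraMap k κ μ * φ (MvPolynomial.X 1) := by
      rw [map_sub, map_ofNat]
      ring
    rw [h2]
    exact hμ
  · rw [← hrel]
    unfold bpoly
    simp only [map_add, map_sub, map_mul, map_pow, map_ofNat]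

end Pool.Agent.PI.NL
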