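import Pool.Agent.Lib.MP_43d240_ag.PI.FFBase

/-!
# Project PI, chapter NL: statements of the modules (helper47)

`m = y`, `c = x - 2 y`; `w = x - μ y = c + (2 - μ) m`.
-/

set_option autoImplicit false

open scoped Polynomial IntermediateField

namespace Pool.Agent.PI.NL

/-- CUB: the cubic `T^3 - (m T + c)^2 - T` with square discriminant splits if it has one root. -/
def CubStatement : Prop :=
  ∀ (F : Type) [Field F] [CharZero F] (m c s t1 : F),
    4 * m ^ 5 * c - 4 * m ^ 3 * c ^ 3 + m ^ 4 + 30 * m ^ 2 * c ^ 2 - 27 * c ^ 4 + 24 * m * c + 4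
      = s ^ 2 →
    t1 ^ 3 - m ^ 2 * t1 ^ 2 - (1 + 2 * m * c) * t1 - c ^ 2 = 0 →
    ∃ t2 t3 : F, t1 + t2 + t3 = m ^ 2 ∧ t1 * t2 + t1 * t3 + t2 * t3 = - (1 + 2 * m * c) ∧
      t1 * t2 * t3 = c ^ 2

/-- GAU: the Gauss lemma for this cubic at a place. -/
def GauStatement : Prop :=
  ∀ (k κ : Type) [Field k] [CharZero k] [Field κ] [Algebra k κ] (v : Pl k κ) (m c t1 t2 t3 : κ),
    t1 + t2 + t3 = m ^ 2 → t1 * t2 + t1 * t3 + t2 * t3 = - (1 + 2 * m * c) →
    t1 * t2 * t3 = c ^ 2 →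
    pp v t1 + pp v t2 + pp v t3 = 2 * max (pp v m) (pp v c)

/-- GEN: for almost all `μ` in `k` the poles of `c + μ m` are the poles of `m` and `c`. -/
def GenStatement : Prop :=
  ∀ (k κ : Type) [Field k] [Field κ] [Algebra k κ] (m c : κ),
    (Function.support fun v : Pl k κ => pp v m).Finite →
    (Function.support fun v : Pl k κ => pp v c).Finite →
    {μ : k | ∃ v : Pl k κ, pp v (c + algebraMap k κ μ * m) ≠ max (pp v m) (pp v c)}.Finite

/-- DEG: the degree of a plane curve is the degree of its function field over `k(x - μ y)`, for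
almost all `μ`. -/
def DegStatement : Prop :=
  ∀ (k κ : Type) [Field k] [IsAlgClosed k] [CharZero k] [Field κ] [Algebra k κ]
    (γ : MvPolynomial (Fin 2) k) (φ : MvPolynomial (Fin 2) k →ₐ[k] κ),
    Irreducible γ → 0 < γ.totalDegree → (∀ f, φ f = 0 ↔ γ ∣ f) →
    (∀ z : κ, ∃ f g, φ g ≠ 0 ∧ z * φ g = φ f) →
    {μ : k | ¬ (Transcendental k (φ (MvPolynomial.X 0) - algebraMap k κ μ * φ (MvPolynomial.X 1)) ∧
      ht k (φ (MvPolynomial.X 0) - algebraMap k κ μ * φ (MvPolynomial.X 1)) =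
        γ.totalDegree)}.Finite

/-- TOW: heights in a finite extension. -/
def TowStatement : Prop :=
  ∀ (k κ κ' : Type) [Field k] [Field κ] [Field κ'] [Algebra k κ] [Algebra k κ'] [Algebra κ κ']
    [IsScalarTower k κ κ'] (f : κ),
    ht k (algebraMap κ κ' f) = ht k f * Module.finrank κ κ'

end Pool.Agent.PI.NL
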